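import Pool.Agent.L0h89.MD.LCF

/-!
# Project MD (helper99), module LCS
-/

set_option autoImplicit false

namespace Pool.Agent.L0h83.MD

open Finset Pool.Agent.L0h99.MN Pool.Agent.L0h99.MD
open Pool.Agent.L0h89.MD (Cn_single)

section

variable {V : Type} [Fintype V] [DecidableEq V]

theorem Cn_pair (G : SimpleGraph V) (a b : V) (h : G.Adj a b) : Cn G {a, b} := by
  refine ⟨⟨a, by simp⟩, ?_⟩
  intro X hX hn hne
  by_cases ha : a ∈ X
  · have hb : b ∉ X := by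
      intro hb
      apply hne
      apply Subset.antisymm hX
      intro z hz
      rw [mem_insert, mem_singleton] at hz
      rcases hz with e | e
      · exact e ▸ ha
      · exact e ▸ hb
    exact ⟨a, ha, b, mem_sdiff.2 ⟨by simp, hb⟩, h⟩
  · obtain ⟨z, hz⟩ := hn
    have hzb : z = b := by
      have := hX hz
      rw [mem_insert, mem_singleton] at this
      rcases this with e | e
      · exact absurd (e ▸ hz) ha
      · exact e
    exact ⟨b, hzb ▸ hz, a, mem_sdiff.2 ⟨by simp, ha⟩, h.symm⟩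

theorem uniq (G : SimpleGraph V) (S : Finset V) (hS : S.card = 6) (s : V) (hs : s ∈ S)
    (hd : 4 ≤ (N G s ∩ S).card) (t t' : V) (ht : t ∈ S) (ht' : t' ∈ S) (h1 : t ≠ s) (h2 : t' ≠ s)
    (h3 : ¬ G.Adj s t) (h4 : ¬ G.Adj s t') : t = t' := by
  by_contra hne
  have h5 : N G s ∩ S ⊆ ((S.erase s).erase t).erase t' := by
    intro z hz
    rw [mem_inter, mem_N] at hz
    refine mem_erase.2 ⟨?_, mem_erase.2 ⟨?_, mem_erase.2 ⟨hz.1.ne', hz.2⟩⟩⟩
    · intro e
      exact h4 (e ▸ hz.1)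
    · intro e
      exact h3 (e ▸ hz.1)
  have h6 := card_le_card h5
  rw [card_erase_of_mem (mem_erase.2 ⟨Ne.symm hne, mem_erase.2 ⟨h2, ht'⟩⟩),
    card_erase_of_mem (mem_erase.2 ⟨h1, ht⟩), card_erase_of_mem hs, hS] at h6
  omega

/-- disjoint and joined by an edge -/
def PP (G : SimpleGraph V) (X Y : Finset V) : Prop :=
  Disjoint X Y ∧ ∃ x ∈ X, ∃ y ∈ Y, G.Adj x y

theorem PP_symm (G : SimpleGraph V) (X Y : Finset V) (h : PP G X Y) : PP G Y X := by
  obtain ⟨h1, x, hx, y, hy, h2⟩ := h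
  exact ⟨h1.symm, y, hy, x, hx, h2.symm⟩

theorem PP_one (G : SimpleGraph V) (a b : V) (h : G.Adj a b) : PP G {a} {b} :=
  ⟨disjoint_singleton.2 h.ne, a, mem_singleton_self a, b, mem_singleton_self b, h⟩

theorem PP_two (G : SimpleGraph V) (a b c : V) (h : G.Adj a b) (h' : a ≠ c) :
    PP G {a} {b, c} := by
  refine ⟨disjoint_singleton_left.2 ?_, a, mem_singleton_self a, b, mem_insert_self b _, h⟩
  rw [mem_insert, mem_singleton]
  rintro (e | e)
  · exact h.ne e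
  · exact h' e

theorem PP_two' (G : SimpleGraph V) (a b c : V) (h : G.Adj a c) (h' : a ≠ b) :
    PP G {a} {b, c} := by
  rw [pair_comm]
  exact PP_two G a c b h h'

theorem k5 (G : SimpleGraph V) (S : Finset V) (u1 u2 p1 q1 p2 q2 : V)
    (m1 : u1 ∈ S) (m2 : u2 ∈ S) (m3 : p1 ∈ S) (m4 : q1 ∈ S) (m5 : p2 ∈ S) (m6 : q2 ∈ S)
    (a1 : G.Adj u1 u2) (a2 : G.Adj u1 p1) (a3 : G.Adj u1 q1) (a4 : G.Adj u1 p2)
    (a5 : G.Adj u1 q2) (b2 : G.Adj u2 p1) (b3 : G.Adj u2 q1) (b4 : G.Adj u2 p2)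
    (b5 : G.Adj u2 q2) (c1 : G.Adj p1 p2) (c2 : G.Adj p1 q2) (c3 : G.Adj q1 p2)
    (c4 : G.Adj q1 q2) (d1 : p1 ≠ q1) (d2 : p2 ≠ q2) : K5in G S := by
  have hall : ∀ i j : Fin 5, i ≠ j → PP G ((![{u1}, {u2}, {p1, p2}, {q1}, {q2}] :
      Fin 5 → Finset V) i) ((![{u1}, {u2}, {p1, p2}, {q1}, {q2}] : Fin 5 → Finset V) j) := by
    have e01 : PP G {u1} {u2} := PP_one G _ _ a1
    have e02 : PP G {u1} {p1, p2} := PP_two G _ _ _ a2 a4.ne
    have e03 : PP G {u1} {q1} := PP_one G _ _ a3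
    have e04 : PP G {u1} {q2} := PP_one G _ _ a5
    have e12 : PP G {u2} {p1, p2} := PP_two G _ _ _ b2 b4.ne
    have e13 : PP G {u2} {q1} := PP_one G _ _ b3
    have e14 : PP G {u2} {q2} := PP_one G _ _ b5
    have e32 : PP G {q1} {p1, p2} := PP_two' G _ _ _ c3 d1.symm
    have e42 : PP G {q2} {p1, p2} := PP_two G _ _ _ c2.symm d2.symm
    have e34 : PP G {q1} {q2} := PP_one G _ _ c4
    intro i j hij
    fin_cases i <;> fin_cases j
    · exact absurd rfl hij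
    · exact e01
    · exact e02
    · exact e03
    · exact e04
    · exact PP_symm _ _ _ e01
    · exact absurd rfl hij
    · exact e12
    · exact e13
    · exact e14
    · exact PP_symm _ _ _ e02
    · exact PP_symm _ _ _ e12
    · exact absurd rfl hij
    · exact PP_symm _ _ _ e32
    · exact PP_symm _ _ _ e42
    · exact PP_symm _ _ _ e03
    · exact PP_symm _ _ _ e13
    · exact e32
    · exact absurd rfl hij
    · exact e34
    · exact PP_symm _ _ _ e04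
    · exact PP_symm _ _ _ e14
    · exact e42
    · exact PP_symm _ _ _ e34
    · exact absurd rfl hij
  refine ⟨![{u1}, {u2}, {p1, p2}, {q1}, {q2}], ?_, fun i j hij => (hall i j hij).1,
    fun i j hij => (hall i j hij).2⟩
  have hs : ∀ x ∈ S, ({x} : Finset V) ⊆ S ∧ Cn G {x} := fun x hx =>
    ⟨singleton_subset_iff.2 hx, Cn_single G x⟩
  intro i
  fin_cases i
  · exact hs _ m1
  · exact hs _ m2
  · refine ⟨?_, Cn_pair G _ _ c1⟩
    show ({p1, p2} : Finset V) ⊆ S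
    intro z hz
    rw [mem_insert, mem_singleton] at hz
    rcases hz with e | e
    · exact e ▸ m3
    · exact e ▸ m5
  · exact hs _ m4
  · exact hs _ m6

theorem patt (G : SimpleGraph V) (S : Finset V) (p q p2 q2 p3 q3 : V)
    (m2 : p2 ∈ S) (m3 : q2 ∈ S) (m4 : p3 ∈ S) (m5 : q3 ∈ S)
    (a1 : G.Adj p p2) (a2 : G.Adj p q2) (a3 : G.Adj p q3) (a4 : p ≠ p3)
    (b1 : G.Adj q p2) (b2 : G.Adj q q2) (b3 : G.Adj q q3) (b4 : q ≠ p3)
    (c1 : G.Adj p2 p3) (c2 : G.Adj p3 q2) (c3 : G.Adj p2 q3) (c4 : G.Adj q2 q3)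
    (d1 : p2 ≠ q2) (d2 : p3 ≠ q3) : Patt G S p q := by
  have hall : ∀ i j : Fin 3, i ≠ j → PP G ((![{p2, p3}, {q2}, {q3}] :
      Fin 3 → Finset V) i) ((![{p2, p3}, {q2}, {q3}] : Fin 3 → Finset V) j) := by
    have e10 : PP G {q2} {p2, p3} := PP_two' G _ _ _ c2.symm d1.symm
    have e20 : PP G {q3} {p2, p3} := PP_two G _ _ _ c3.symm d2.symm
    have e12 : PP G {q2} {q3} := PP_one G _ _ c4
    intro i j hij
    fin_cases i <;> fin_cases j
    · exact absurd rfl hij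
    · exact PP_symm _ _ _ e10
    · exact PP_symm _ _ _ e20
    · exact e10
    · exact absurd rfl hij
    · exact e12
    · exact e20
    · exact PP_symm _ _ _ e12
    · exact absurd rfl hij
  refine ⟨![{p2, p3}, {q2}, {q3}], ?_, fun i j hij => (hall i j hij).1,
    fun i j hij => (hall i j hij).2⟩
  have hs : ∀ x ∈ S, G.Adj p x → G.Adj q x → ({x} : Finset V) ⊆ S ∧ p ∉ ({x} : Finset V) ∧
      q ∉ ({x} : Finset V) ∧ Cn G {x} ∧ (∃ y ∈ ({x} : Finset V), G.Adj p y) ∧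
      ∃ y ∈ ({x} : Finset V), G.Adj q y := fun x hx h1 h2 =>
    ⟨singleton_subset_iff.2 hx, fun e => h1.ne (mem_singleton.1 e),
      fun e => h2.ne (mem_singleton.1 e), Cn_single G x, ⟨x, mem_singleton_self x, h1⟩,
      ⟨x, mem_singleton_self x, h2⟩⟩
  intro i
  fin_cases i
  · show ({p2, p3} : Finset V) ⊆ S ∧ p ∉ ({p2, p3} : Finset V) ∧
      q ∉ ({p2, p3} : Finset V) ∧ Cn G {p2, p3} ∧ (∃ y ∈ ({p2, p3} : Finset V), G.Adj p y) ∧
      ∃ y ∈ ({p2, p3} : Finset V), G.Adj q y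
    refine ⟨?_, ?_, ?_, Cn_pair G _ _ c1, ⟨p2, mem_insert_self _ _, a1⟩,
      ⟨p2, mem_insert_self _ _, b1⟩⟩
    · intro z hz
      rw [mem_insert, mem_singleton] at hz
      rcases hz with e | e
      · exact e ▸ m2
      · exact e ▸ m4
    · rw [mem_insert, mem_singleton]
      rintro (e | e)
      · exact a1.ne e
      · exact a4 e
    · rw [mem_insert, mem_singleton]
      rintro (e | e)
      · exact b1.ne e
      · exact b4 e
  · exact hs _ m3 a2 b2
  · exact hs _ m5 a3 b3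

end

theorem LCS : St_LCS := by
  intro V _ _ G S hS hd
  have hA : ∀ s ∈ S, ∀ t ∈ S, t ≠ s → ¬ G.Adj s t → ∀ x ∈ S, x ≠ s → x ≠ t → G.Adj s x := by
    intro s hs t ht h1 h2 x hx h3 h4
    by_contra h5
    exact h4 (uniq G S hS s hs (hd s hs) x t hx ht h3 h1 h5 h2)
  by_cases hcase : ∀ s ∈ S, ∃ t ∈ S, t ≠ s ∧ ¬ G.Adj s t
  · right
    constructor
    · have h1 : ∀ x ∈ S, ((N G x ∩ S).card : ℤ) ≤ 4 := by
        intro x hx
        obtain ⟨t, ht, h1, h2⟩ := hcase x hx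
        have h3 : N G x ∩ S ⊆ (S.erase x).erase t := by
          intro z hz
          rw [mem_inter, mem_N] at hz
          refine mem_erase.2 ⟨fun e => h2 (e ▸ hz.1), mem_erase.2 ⟨hz.1.ne', hz.2⟩⟩
        have h4 := card_le_card h3
        rw [card_erase_of_mem (mem_erase.2 ⟨h1, ht⟩), card_erase_of_mem hx, hS] at h4
        have : (N G x ∩ S).card ≤ 4 := h4
        exact_mod_cast this
      have h2 := sum_le_sum h1
      rw [sum_const, hS] at h2
      unfold ee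
      rw [hS]
      refine h2.trans ?_
      norm_num
    · intro p hp q hq hpq hnpq
      have hnqp : ¬ G.Adj q p := fun h => hnpq h.symm
      have hc : 0 < ((S.erase p).erase q).card := by
        rw [card_erase_of_mem (mem_erase.2 ⟨hpq.symm, hq⟩), card_erase_of_mem hp, hS]
        norm_num
      obtain ⟨p2, hp2⟩ := card_pos.1 hc
      rw [mem_erase, mem_erase] at hp2
      obtain ⟨e1, e2, hp2S⟩ := hp2
      have A1 := hA p hp q hq hpq.symm hnpq
      have A2 := hA q hq p hp hpq hnqp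
      obtain ⟨q2, hq2S, f1, f2⟩ := hcase p2 hp2S
      have g1 : q2 ≠ p := fun e => f2 (e ▸ (A1 p2 hp2S e2 e1).symm)
      have g2 : q2 ≠ q := fun e => f2 (e ▸ (A2 p2 hp2S e1 e2).symm)
      have A3 := hA p2 hp2S q2 hq2S f1 f2
      have A4 := hA q2 hq2S p2 hp2S f1.symm (fun h => f2 h.symm)
      have hc2 : 0 < ((((S.erase p).erase q).erase p2).erase q2).card := by
        rw [card_erase_of_mem (by simp only [mem_erase]; exact ⟨f1, g2, g1, hq2S⟩),
          card_erase_of_mem (by simp only [mem_erase]; exact ⟨e1, e2, hp2S⟩),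
          card_erase_of_mem (mem_erase.2 ⟨hpq.symm, hq⟩), card_erase_of_mem hp, hS]
        norm_num
      obtain ⟨p3, hp3⟩ := card_pos.1 hc2
      simp only [mem_erase] at hp3
      obtain ⟨i1, i2, i3, i4, hp3S⟩ := hp3
      obtain ⟨q3, hq3S, j1, j2⟩ := hcase p3 hp3S
      have k1 : q3 ≠ p := fun e => j2 (e ▸ (A1 p3 hp3S i4 i3).symm)
      have k2 : q3 ≠ q := fun e => j2 (e ▸ (A2 p3 hp3S i3 i4).symm)
      have k3 : q3 ≠ p2 := fun e => j2 (e ▸ (A3 p3 hp3S i2 i1).symm)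
      have k4 : q3 ≠ q2 := fun e => j2 (e ▸ (A4 p3 hp3S i1 i2).symm)
      exact patt G S p q p2 q2 p3 q3 hp2S hq2S hp3S hq3S (A1 p2 hp2S e2 e1)
        (A1 q2 hq2S g1 g2) (A1 q3 hq3S k1 k2) i4.symm (A2 p2 hp2S e1 e2) (A2 q2 hq2S g2 g1)
        (A2 q3 hq3S k2 k1) i3.symm (A3 p3 hp3S i2 i1) (A4 p3 hp3S i1 i2).symm
        (A3 q3 hq3S k3 k4) (A4 q3 hq3S k4 k3) f1.symm j1.symm
  · left
    push Not at hcase
    obtain ⟨u1, hu1, hU1⟩ := hcase
    have hex : ∃ u2 ∈ S, u2 ≠ u1 ∧ ∀ t ∈ S, t ≠ u2 → G.Adj u2 t := by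
      by_contra hno
      push Not at hno
      have hc1 : 0 < (S.erase u1).card := by
        rw [card_erase_of_mem hu1, hS]
        norm_num
      obtain ⟨p1, hp1⟩ := card_pos.1 hc1
      rw [mem_erase] at hp1
      obtain ⟨e1, hp1S⟩ := hp1
      obtain ⟨q1, hq1S, f1, f2⟩ := hno p1 hp1S e1
      have g1 : q1 ≠ u1 := fun e => f2 (e ▸ (hU1 p1 hp1S e1).symm)
      have A1 := hA p1 hp1S q1 hq1S f1 f2
      have A2 := hA q1 hq1S p1 hp1S f1.symm (fun h => f2 h.symm)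
      have c1 : (S.erase u1).card = 5 := by rw [card_erase_of_mem hu1, hS]
      have c2 : ((S.erase u1).erase p1).card = 4 := by
        rw [card_erase_of_mem (mem_erase.2 ⟨e1, hp1S⟩), c1]
      have c3 : (((S.erase u1).erase p1).erase q1).card = 3 := by
        rw [card_erase_of_mem (by simp only [mem_erase]; exact ⟨f1, g1, hq1S⟩), c2]
      obtain ⟨p2, hp2⟩ := card_pos.1 (show 0 < (((S.erase u1).erase p1).erase q1).card by
        rw [c3]; norm_num)
      have hp2' := hp2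
      simp only [mem_erase] at hp2'
      obtain ⟨i1, i2, i3, hp2S⟩ := hp2'
      obtain ⟨q2, hq2S, j1, j2⟩ := hno p2 hp2S i3
      have k1 : q2 ≠ u1 := fun e => j2 (e ▸ (hU1 p2 hp2S i3).symm)
      have k2 : q2 ≠ p1 := fun e => j2 (e ▸ (A1 p2 hp2S i2 i1).symm)
      have k3 : q2 ≠ q1 := fun e => j2 (e ▸ (A2 p2 hp2S i1 i2).symm)
      have A3 := hA p2 hp2S q2 hq2S j1 j2
      have A4 := hA q2 hq2S p2 hp2S j1.symm (fun h => j2 h.symm)
      have c4 : ((((S.erase u1).erase p1).erase q1).erase p2).card = 2 := by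
        rw [card_erase_of_mem hp2, c3]
      have c5 : (((((S.erase u1).erase p1).erase q1).erase p2).erase q2).card = 1 := by
        rw [card_erase_of_mem (by simp only [mem_erase]; exact ⟨j1, k3, k2, k1, hq2S⟩), c4]
      obtain ⟨w, hw⟩ := card_eq_one.1 c5
      have hwm : w ∈ ((((S.erase u1).erase p1).erase q1).erase p2).erase q2 := by
        rw [hw]
        exact mem_singleton_self w
      simp only [mem_erase] at hwm
      obtain ⟨l1, l2, l3, l4, l5, hwS⟩ := hwm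
      obtain ⟨z, hzS, n1, n2⟩ := hno w hwS l5
      have o1 : z ≠ u1 := fun e => n2 (e ▸ (hU1 w hwS l5).symm)
      have o2 : z ≠ p1 := fun e => n2 (e ▸ (A1 w hwS l4 l3).symm)
      have o3 : z ≠ q1 := fun e => n2 (e ▸ (A2 w hwS l3 l4).symm)
      have o4 : z ≠ p2 := fun e => n2 (e ▸ (A3 w hwS l2 l1).symm)
      have o5 : z ≠ q2 := fun e => n2 (e ▸ (A4 w hwS l1 l2).symm)
      have hz : z ∈ ((((S.erase u1).erase p1).erase q1).erase p2).erase q2 := by
        simp only [mem_erase]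
        exact ⟨o5, o4, o3, o2, o1, hzS⟩
      rw [hw] at hz
      exact n1 (mem_singleton.1 hz)
    obtain ⟨u2, hu2, hne, hU2⟩ := hex
    have c1 : ((S.erase u1).erase u2).card = 4 := by
      rw [card_erase_of_mem (mem_erase.2 ⟨hne, hu2⟩), card_erase_of_mem hu1, hS]
    have hpq : ∃ p1 ∈ (S.erase u1).erase u2, ∃ q1 ∈ (S.erase u1).erase u2, q1 ≠ p1 ∧
        ∀ x ∈ S, x ≠ p1 → x ≠ q1 → x ≠ u1 → x ≠ u2 → G.Adj p1 x ∧ G.Adj q1 x := by
      by_cases h : ∃ p1 ∈ (S.erase u1).erase u2, ∃ q1 ∈ (S.erase u1).erase u2, q1 ≠ p1 ∧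
          ¬ G.Adj p1 q1
      · obtain ⟨p1, hp1, q1, hq1, h1, h2⟩ := h
        refine ⟨p1, hp1, q1, hq1, h1, fun x hx h3 h4 _ _ => ⟨?_, ?_⟩⟩
        · exact hA p1 (mem_of_mem_erase (mem_of_mem_erase hp1)) q1
            (mem_of_mem_erase (mem_of_mem_erase hq1)) h1 h2 x hx h3 h4
        · exact hA q1 (mem_of_mem_erase (mem_of_mem_erase hq1)) p1
            (mem_of_mem_erase (mem_of_mem_erase hp1)) h1.symm (fun e => h2 e.symm) x hx h4 h3
      · push Not at h
        obtain ⟨p1, hp1⟩ := card_pos.1 (show 0 < ((S.erase u1).erase u2).card by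
          rw [c1]; norm_num)
        have c2 : (((S.erase u1).erase u2).erase p1).card = 3 := by
          rw [card_erase_of_mem hp1, c1]
        obtain ⟨q1, hq1⟩ := card_pos.1 (show 0 < (((S.erase u1).erase u2).erase p1).card by
          rw [c2]; norm_num)
        refine ⟨p1, hp1, q1, mem_of_mem_erase hq1, (mem_erase.1 hq1).1,
          fun x hx h3 h4 h5 h6 => ⟨?_, ?_⟩⟩
        · exact h p1 hp1 x (mem_erase.2 ⟨h6, mem_erase.2 ⟨h5, hx⟩⟩) h3
        · exact h q1 (mem_of_mem_erase hq1) x (mem_erase.2 ⟨h6, mem_erase.2 ⟨h5, hx⟩⟩) h4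
    obtain ⟨p1, hp1, q1, hq1, hqp, hX⟩ := hpq
    have c2 : (((S.erase u1).erase u2).erase p1).card = 3 := by
      rw [card_erase_of_mem hp1, c1]
    have c3 : ((((S.erase u1).erase u2).erase p1).erase q1).card = 2 := by
      rw [card_erase_of_mem (mem_erase.2 ⟨hqp, hq1⟩), c2]
    obtain ⟨p2, q2, hpq2, hset⟩ := card_eq_two.1 c3
    have hp2 : p2 ∈ (((S.erase u1).erase u2).erase p1).erase q1 := by
      rw [hset]; exact mem_insert_self _ _
    have hq2 : q2 ∈ (((S.erase u1).erase u2).erase p1).erase q1 := by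
      rw [hset]; exact mem_insert_of_mem (mem_singleton_self _)
    simp only [mem_erase] at hp2 hq2 hp1 hq1
    obtain ⟨r1, r2, r3, r4, hp2S⟩ := hp2
    obtain ⟨s1, s2, s3, s4, hq2S⟩ := hq2
    obtain ⟨t1, t2, hp1S⟩ := hp1
    obtain ⟨v1, v2, hq1S⟩ := hq1
    have X1 := hX p2 hp2S r2 r1 r4 r3
    have X2 := hX q2 hq2S s2 s1 s4 s3
    exact k5 G S u1 u2 p1 q1 p2 q2 hu1 hu2 hp1S hq1S hp2S hq2S (hU1 u2 hu2 hne)
      (hU1 p1 hp1S t2) (hU1 q1 hq1S v2) (hU1 p2 hp2S r4) (hU1 q2 hq2S s4)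
      (hU2 p1 hp1S t1) (hU2 q1 hq1S v1) (hU2 p2 hp2S r3) (hU2 q2 hq2S s3)
      X1.1 X2.1 X1.2 X2.2 hqp.symm hpq2

end Pool.Agent.L0h83.MD
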